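import Mathlib
import Pool.Agent.V11281.Bt.RP

/-!
# The leading term of a Kodiyalam polynomial can depend on the field
-/

set_option autoImplicit false

open MvPolynomial Filter

namespace Pool.Agent.Results.MP_76aa63_al.LeadingTermDepends

open Pool.Agent.V11281.Bt

/-- the box containing all relevant degrees -/
noncomputable def box (h : ℕ) : Finset (Fin 6 →₀ ℕ) :=
  Finset.Iic (Finsupp.equivFunOnFinite.symm (fun _ : Fin 6 => 3 * h))

theorem mem_box (h : ℕ) (a : Fin 6 →₀ ℕ) : a ∈ box h ↔ ∀ j, a j ≤ 3 * h := by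
  unfold box
  rw [Finset.mem_Iic]
  rfl

theorem betti_box (K : Type) [Field K] (h : ℕ) :
    betti K (monoIdeal K gen ^ h) 3 = ∑ a ∈ box h, hdim K (Kos (Aexp gen h) a) 3 :=
  betti_pow K gen 3 (fun t i => ex_le t i) h 3 (box h) (fun a ha => (mem_box h a).2 ha)

/-- the upper bound -/
theorem upper (K : Type) [Field K] (h : ℕ) :
    betti K (monoIdeal K gen ^ h) 3 ≤ 1024 * (3 * h + 1) ^ 5 := by
  classical
  rw [betti_box]
  have h1 : ∀ a ∈ box h, hdim K (Kos (Aexp gen h) a) 3 ≤
      if 3 * h ≤ ∑ i, a i ∧ ∑ i, a i < 3 * h + 16 then 64 else 0 := by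
    intro a _
    split_ifs with hc
    · exact (hdim_le K _ 3).trans (by norm_num)
    · rw [hdim_eq_zero K _ 3 (exact_outside K h a hc 3)]
  refine (Finset.sum_le_sum h1).trans ?_
  rw [← Finset.sum_filter, Finset.sum_const, smul_eq_mul]
  set W := (box h).filter (fun a => 3 * h ≤ ∑ i, a i ∧ ∑ i, a i < 3 * h + 16) with hW
  have h2 : W.card ≤ 16 * (3 * h + 1) ^ 5 := by
    have h3 : W.card ≤ (Finset.univ : Finset (Fin 16 × (Fin 5 → Fin (3 * h + 1)))).card := by
      apply Finset.card_le_card_of_injOn (fun a : Fin 6 →₀ ℕ =>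
        ((⟨(∑ i, a i - 3 * h) % 16, Nat.mod_lt _ (by norm_num)⟩ : Fin 16),
          (fun i : Fin 5 => (⟨a i.succ % (3 * h + 1), Nat.mod_lt _ (by omega)⟩ :
            Fin (3 * h + 1)))))
      · intro a _
        exact Finset.mem_univ _
      · intro a ha b hb hab
        rw [Finset.mem_coe, hW, Finset.mem_filter, mem_box] at ha hb
        have e1 := congrArg (fun x => (x.1 : ℕ)) hab
        have e2 : ∀ i : Fin 5, a i.succ = b i.succ := by
          intro i
          have e3 := congrArg (fun x => ((x.2 i : Fin (3 * h + 1)) : ℕ)) hab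
          simp only at e3
          rw [Nat.mod_eq_of_lt (by have := ha.1 i.succ; omega),
            Nat.mod_eq_of_lt (by have := hb.1 i.succ; omega)] at e3
          exact e3
        simp only at e1
        rw [Nat.mod_eq_of_lt (by have := ha.2; omega),
          Nat.mod_eq_of_lt (by have := hb.2; omega)] at e1
        have e4 : ∑ i, a i = ∑ i, b i := by
          have := ha.2
          have := hb.2
          omega
        rw [Fin.sum_univ_succ, Fin.sum_univ_succ (fun i => b i),
          Finset.sum_congr rfl (fun i _ => e2 i)] at e4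
        have e5 : a 0 = b 0 := by omega
        ext i
        refine Fin.cases e5 (fun i => e2 i) i
    rw [Finset.card_univ, Fintype.card_prod, Fintype.card_fin, Fintype.card_fun, Fintype.card_fin,
      Fintype.card_fin] at h3
    exact h3
  calc W.card * 64 ≤ (16 * (3 * h + 1) ^ 5) * 64 := Nat.mul_le_mul_right _ h2
    _ = 1024 * (3 * h + 1) ^ 5 := by ring

/-- the lower bound for the difference -/
theorem lower (h : ℕ) :
    betti ℚ (monoIdeal ℚ gen ^ (h + 1)) 3 + (h + 5).choose 5 ≤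
      betti (ZMod 2) (monoIdeal (ZMod 2) gen ^ (h + 1)) 3 := by
  classical
  rw [betti_box, betti_box]
  set T : Finset (Fin 6 →₀ ℕ) := (Finset.finsuppAntidiag Finset.univ h).image dq with hT
  have hcard : T.card = (h + 5).choose 5 := by
    rw [hT, Finset.card_image_of_injective, Finset.card_finsuppAntidiag_nat_eq_choose,
      Finset.card_univ, Fintype.card_fin]
    · have e1 : 6 + h - 1 = h + 5 := by omega
      rw [e1, Nat.choose_symm_add]
    · intro p q hpq
      ext i
      have := DFunLike.congr_fun hpq i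
      rw [dq_apply, dq_apply] at this
      omega
  have hTq : ∀ a ∈ T, Kos (Aexp gen (h + 1)) a = RP := by
    intro a ha
    rw [hT, Finset.mem_image] at ha
    obtain ⟨q, hq, rfl⟩ := ha
    rw [Finset.mem_finsuppAntidiag] at hq
    exact Kos_dq h q hq.1
  have hTB : T ⊆ box (h + 1) := by
    intro a ha
    rw [hT, Finset.mem_image] at ha
    obtain ⟨q, hq, rfl⟩ := ha
    rw [Finset.mem_finsuppAntidiag] at hq
    rw [mem_box]
    intro j
    have h1 : q j ≤ h := by
      rw [← hq.1]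
      exact Finset.single_le_sum (f := fun i => q i) (fun _ _ => Nat.zero_le _) (Finset.mem_univ j)
    rw [dq_apply]
    omega
  have hdown : ∀ a, ∀ F ∈ Kos (Aexp gen (h + 1)) a, ∀ G, G ⊆ F →
      G ∈ Kos (Aexp gen (h + 1)) a := by
    intro a F hF G hGF
    exact Kos_down (monoIdeal ℚ gen ^ (h + 1)) _ (mem_pow ℚ gen (h + 1)) a hF hGF
  have h1 : ∀ a ∈ box (h + 1), hdim ℚ (Kos (Aexp gen (h + 1)) a) 3 + (if a ∈ T then 1 else 0) ≤
      hdim (ZMod 2) (Kos (Aexp gen (h + 1)) a) 3 := by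
    intro a _
    split_ifs with ha
    · rw [hTq a ha, RP_rat]
      exact RP_two
    · exact hdim_mono _ (hdown a) 3
  have h2 := Finset.sum_le_sum h1
  rw [Finset.sum_add_distrib, Finset.sum_ite_mem, Finset.inter_eq_right.2 hTB, Finset.sum_const,
    smul_eq_mul, mul_one, hcard] at h2
  exact h2

/-- Polynomials bounded by `C x ^ 5` have degree at most five. -/
theorem degree_le_five (P : Polynomial ℚ) (C : ℚ) (hP : ∀ᶠ h : ℕ in atTop,
    |P.eval (h : ℚ)| ≤ C * (h : ℚ) ^ 5) : P.degree ≤ 5 := by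
  by_contra hcon
  push Not at hcon
  have h5 : (Polynomial.X ^ 5 : Polynomial ℚ).degree = 5 := by
    rw [Polynomial.degree_X_pow]
    rfl
  have h1 : Tendsto (fun x : ℚ => |P.eval x / (Polynomial.X ^ 5 : Polynomial ℚ).eval x|)
      atTop atTop := by
    apply Polynomial.abs_div_tendsto_atTop_atTop_of_degree_gt
    · rw [h5]; exact hcon
    · exact pow_ne_zero _ Polynomial.X_ne_zero
  have h2 := h1.comp (tendsto_natCast_atTop_atTop (R := ℚ))
  have h3 := (tendsto_atTop.1 h2 (C + 1)).and (hP.and (eventually_gt_atTop 0))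
  obtain ⟨h, h4, h6, h7⟩ := h3.exists
  have h8 : (0 : ℚ) < (h : ℚ) ^ 5 := by positivity
  simp only [Function.comp, Polynomial.eval_pow, Polynomial.eval_X] at h4
  rw [abs_div, abs_of_pos h8, le_div_iff₀ h8] at h4
  nlinarith

/-- **Main theorem.** For the ideal `I` of `K[x_0, …, x_5]` generated by the sixteen monomials
with exponent vectors `gen`, the degree or the leading coefficient of the third Kodiyalam
polynomial is different over `𝔽₂` and over `ℚ`. -/
theorem result :
    (∀ P Q : Polynomial ℚ,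
      (∀ᶠ l : ℕ in atTop, (betti (ZMod 2) (monoIdeal (ZMod 2) gen ^ l) 3 : ℚ) = P.eval (l : ℚ)) →
      (∀ᶠ l : ℕ in atTop, (betti ℚ (monoIdeal ℚ gen ^ l) 3 : ℚ) = Q.eval (l : ℚ)) →
      P.degree ≠ Q.degree ∨ P.leadingCoeff ≠ Q.leadingCoeff) ∧
    (∀ l : ℕ, 1 ≤ l → betti ℚ (monoIdeal ℚ gen ^ l) 3 + (l + 4).choose 5 ≤
      betti (ZMod 2) (monoIdeal (ZMod 2) gen ^ l) 3) ∧
    (∀ (K : Type) [Field K] (l : ℕ), betti K (monoIdeal K gen ^ l) 3 ≤ 1024 * (3 * l + 1) ^ 5) := by
  have hlow : ∀ l : ℕ, 1 ≤ l → betti ℚ (monoIdeal ℚ gen ^ l) 3 + (l + 4).choose 5 ≤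
      betti (ZMod 2) (monoIdeal (ZMod 2) gen ^ l) 3 := by
    intro l hl
    obtain ⟨h, rfl⟩ : ∃ h, l = h + 1 := ⟨l - 1, by omega⟩
    exact lower h
  refine ⟨?_, hlow, fun K _ l => upper K l⟩
  intro P Q hP hQ
  by_contra hcon
  push Not at hcon
  obtain ⟨hd, hl⟩ := hcon
  have hPdeg : P.degree ≤ 5 := by
    apply degree_le_five P (1024 * 4 ^ 5)
    filter_upwards [hP, eventually_ge_atTop 1] with l h1 h2
    rw [← h1, abs_of_nonneg (Nat.cast_nonneg _)]
    have h3 := upper (ZMod 2) l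
    have h4 : 1024 * (3 * l + 1) ^ 5 ≤ 1024 * (4 * l) ^ 5 :=
      Nat.mul_le_mul_left _ (Nat.pow_le_pow_left (by omega) 5)
    have h5 : ((betti (ZMod 2) (monoIdeal (ZMod 2) gen ^ l) 3 : ℕ) : ℚ) ≤
        ((1024 * (4 * l) ^ 5 : ℕ) : ℚ) := by exact_mod_cast h3.trans h4
    refine h5.trans (le_of_eq ?_)
    push_cast
    ring
  have hev : ∀ᶠ l : ℕ in atTop, (l : ℚ) ^ 5 / 120 ≤ (P - Q).eval (l : ℚ) := by
    filter_upwards [hP, hQ, eventually_ge_atTop 1] with l h1 h2 h3
    rw [Polynomial.eval_sub, ← h1, ← h2]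
    have h4 : ((betti ℚ (monoIdeal ℚ gen ^ l) 3 + (l + 4).choose 5 : ℕ) : ℚ) ≤
      (betti (ZMod 2) (monoIdeal (ZMod 2) gen ^ l) 3 : ℚ) := by exact_mod_cast hlow l h3
    have h5 := Nat.pow_le_choose (α := ℚ) 5 (l + 4)
    have h6 : l + 4 + 1 - 5 = l := by omega
    have h7 : ((5).factorial : ℚ) = 120 := by norm_num [Nat.factorial]
    rw [h6, h7] at h5
    push_cast at h4
    linarith
  by_cases hPQ : P - Q = 0
  · rw [hPQ] at hev
    obtain ⟨l, h1, h2⟩ := (hev.and (eventually_gt_atTop 0)).exists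
    rw [Polynomial.eval_zero] at h1
    have : (0 : ℚ) < (l : ℚ) ^ 5 / 120 := by positivity
    linarith
  · have hP0 : P ≠ 0 := by
      rintro rfl
      rw [Polynomial.degree_zero, eq_comm, Polynomial.degree_eq_bot] at hd
      exact hPQ (by rw [hd, sub_zero])
    have h1 : (P - Q).degree < P.degree := Polynomial.degree_sub_lt_left hd hP0 hl
    have h5 : (Polynomial.X ^ 5 : Polynomial ℚ).degree = 5 := by
      rw [Polynomial.degree_X_pow]
      rfl
    have h2 : Tendsto (fun x : ℚ => (P - Q).eval x / (Polynomial.X ^ 5 : Polynomial ℚ).eval x)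
        atTop (nhds 0) := by
      apply Polynomial.div_tendsto_atTop_zero_of_degree_lt
      rw [h5]
      exact lt_of_lt_of_le h1 hPdeg
    have h3 := h2.comp (tendsto_natCast_atTop_atTop (R := ℚ))
    have h4 : ∀ᶠ l : ℕ in atTop, ((fun x : ℚ => (P - Q).eval x /
        (Polynomial.X ^ 5 : Polynomial ℚ).eval x) ∘ Nat.cast) l < 1 / 120 :=
      h3.eventually (gt_mem_nhds (by norm_num))
    obtain ⟨l, h6, h7, h8⟩ := (h4.and (hev.and (eventually_gt_atTop 0))).exists
    have h9 : (0 : ℚ) < (l : ℚ) ^ 5 := by positivity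
    simp only [Function.comp, Polynomial.eval_pow, Polynomial.eval_X] at h6
    rw [div_lt_iff₀ h9] at h6
    linarith

end Pool.Agent.Results.MP_76aa63_al.LeadingTermDepends
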